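import Mathlib

/-! The density argument, in general coordinates and for a general family of radii. -/

set_option autoImplicit false

open Topology Filter Metric Set MeasureTheory Polynomial
open scoped Real NNReal OnePoint ENNReal

namespace Pool.Agent.Helper65.EX

theorem rot_preserving {ι : Type} [Fintype ι] (θ : ℝ) :
    MeasurePreserving (fun v : ι → ℂ => Complex.exp (θ * Complex.I) • v) volume volume := by
  have h1 : MeasurePreserving (fun z : ℂ => Complex.exp (θ * Complex.I) * z) volume volume := by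
    have h2 := (rotation (Circle.exp θ)).measurePreserving
    have h3 : (rotation (Circle.exp θ) : ℂ → ℂ) = fun z => Complex.exp (θ * Complex.I) * z := by
      funext z
      rw [rotation_apply, Circle.coe_exp]
    rwa [h3] at h2
  exact volume_preserving_pi (fun _ : ι => h1)

theorem rot_lint {ι : Type} [Fintype ι] (θ : ℝ) {f : (ι → ℂ) → ℝ≥0∞} (hf : Measurable f) :
    ∫⁻ v in closedBall (0 : ι → ℂ) 1, f (Complex.exp (θ * Complex.I) • v) =
      ∫⁻ v in closedBall (0 : ι → ℂ) 1, f v := by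
  have hK : MeasurableSet (closedBall (0 : ι → ℂ) 1) := isClosed_closedBall.measurableSet
  have h1 := (rot_preserving (ι := ι) θ).lintegral_comp (hf.indicator hK)
  rw [← lintegral_indicator hK, ← lintegral_indicator hK, ← h1]
  refine lintegral_congr fun v => ?_
  by_cases hv : v ∈ closedBall (0 : ι → ℂ) 1
  · have hv2 : Complex.exp (θ * Complex.I) • v ∈ closedBall (0 : ι → ℂ) 1 := by
      rw [mem_closedBall_zero_iff, norm_smul, Complex.norm_exp_ofReal_mul_I, one_mul]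
      rwa [mem_closedBall_zero_iff] at hv
    rw [indicator_of_mem hv, indicator_of_mem hv2]
  · have hv2 : Complex.exp (θ * Complex.I) • v ∉ closedBall (0 : ι → ℂ) 1 := by
      rw [mem_closedBall_zero_iff, norm_smul, Complex.norm_exp_ofReal_mul_I, one_mul]
      rwa [mem_closedBall_zero_iff] at hv
    rw [indicator_of_notMem hv, indicator_of_notMem hv2]

/-- the indicator of the bad set in a direction -/
noncomputable def Fi {ι : Type} [Fintype ι] (G : Set (ι → ℂ)) (x0 : ι → ℂ) (r θ : ℝ) (v : ι → ℂ) : ℝ≥0∞ :=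
  (Gᶜ).indicator (fun _ => (1 : ℝ≥0∞)) (x0 + ((r : ℂ) * Complex.exp (θ * Complex.I)) • v)

section

variable {ι : Type} [Fintype ι] {G : Set (ι → ℂ)} (hG : IsOpen G) (x0 : ι → ℂ)

include hG in
theorem Fi_meas (r : ℝ) : Measurable (fun q : ℝ × (ι → ℂ) => Fi G x0 r q.1 q.2) := by
  have h1 : Measurable (fun q : ℝ × (ι → ℂ) =>
      x0 + ((r : ℂ) * Complex.exp (q.1 * Complex.I)) • q.2) :=
    (by fun_prop : Continuous (fun q : ℝ × (ι → ℂ) =>
      x0 + ((r : ℂ) * Complex.exp (q.1 * Complex.I)) • q.2)).measurable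
  have h2 : Measurable ((Gᶜ).indicator (fun _ : ι → ℂ => (1 : ℝ≥0∞))) :=
    measurable_const.indicator hG.measurableSet.compl
  exact h2.comp h1

include hG in
theorem Fi_meas_v (r θ : ℝ) : Measurable (fun v : ι → ℂ => Fi G x0 r θ v) := by
  have h1 : Measurable (fun v : ι → ℂ =>
      x0 + ((r : ℂ) * Complex.exp (θ * Complex.I)) • v) :=
    (by fun_prop : Continuous (fun v : ι → ℂ =>
      x0 + ((r : ℂ) * Complex.exp (θ * Complex.I)) • v)).measurable
  have h2 : Measurable ((Gᶜ).indicator (fun _ : ι → ℂ => (1 : ℝ≥0∞))) :=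
    measurable_const.indicator hG.measurableSet.compl
  exact h2.comp h1

include hG in
theorem Fi_meas_t (r : ℝ) (v : ι → ℂ) : Measurable (fun θ : ℝ => Fi G x0 r θ v) := by
  have h1 : Measurable (fun θ : ℝ =>
      x0 + ((r : ℂ) * Complex.exp (θ * Complex.I)) • v) :=
    (by fun_prop : Continuous (fun θ : ℝ =>
      x0 + ((r : ℂ) * Complex.exp (θ * Complex.I)) • v)).measurable
  have h2 : Measurable ((Gᶜ).indicator (fun _ : ι → ℂ => (1 : ℝ≥0∞))) :=
    measurable_const.indicator hG.measurableSet.compl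
  exact h2.comp h1

theorem Fi_le (r θ : ℝ) (v : ι → ℂ) : Fi G x0 r θ v ≤ 1 := by
  unfold Fi
  exact indicator_le_self (Gᶜ) (fun _ : ι → ℂ => (1 : ℝ≥0∞)) _

theorem Fi_zero {r θ : ℝ} {v : ι → ℂ}
    (h : x0 + ((r : ℂ) * Complex.exp (θ * Complex.I)) • v ∈ G) : Fi G x0 r θ v = 0 := by
  unfold Fi
  have h2 : x0 + ((r : ℂ) * Complex.exp (θ * Complex.I)) • v ∉ Gᶜ := fun h3 => (mem_compl_iff _ _).1 h3 h
  exact indicator_of_notMem h2 _

theorem Fi_rot (r θ : ℝ) (v : ι → ℂ) :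
    Fi G x0 r 0 (Complex.exp (θ * Complex.I) • v) = Fi G x0 r θ v := by
  unfold Fi
  rw [smul_smul, Complex.ofReal_zero, zero_mul, Complex.exp_zero, mul_one]

include hG in
theorem Fi_int (r θ : ℝ) : ∫⁻ v in closedBall (0 : ι → ℂ) 1, Fi G x0 r θ v =
    ∫⁻ v in closedBall (0 : ι → ℂ) 1, Fi G x0 r 0 v := by
  have h1 := rot_lint θ (Fi_meas_v hG x0 r 0)
  rw [← h1]
  exact lintegral_congr fun v => (Fi_rot x0 r θ v).symm

theorem lint_one : ∫⁻ _ in Ioc (0 : ℝ) 1, (1 : ℝ≥0∞) = 1 := by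
  rw [lintegral_const, Measure.restrict_apply MeasurableSet.univ, univ_inter,
    Real.volume_Ioc, sub_zero, ENNReal.ofReal_one, mul_one]

include hG in
theorem Fi_swap (r : ℝ) : ∫⁻ v in closedBall (0 : ι → ℂ) 1, Fi G x0 r 0 v =
    ∫⁻ v in closedBall (0 : ι → ℂ) 1, ∫⁻ θ in Ioc (0 : ℝ) 1, Fi G x0 r θ v := by
  have h1 : ∫⁻ θ in Ioc (0 : ℝ) 1, ∫⁻ v in closedBall (0 : ι → ℂ) 1, Fi G x0 r θ v =
      ∫⁻ v in closedBall (0 : ι → ℂ) 1, ∫⁻ θ in Ioc (0 : ℝ) 1, Fi G x0 r θ v :=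
    lintegral_lintegral_swap (Fi_meas hG x0 r).aemeasurable
  rw [← h1]
  have h2 : ∫⁻ θ in Ioc (0 : ℝ) 1, ∫⁻ v in closedBall (0 : ι → ℂ) 1, Fi G x0 r θ v =
      ∫⁻ _ in Ioc (0 : ℝ) 1, ∫⁻ v in closedBall (0 : ι → ℂ) 1, Fi G x0 r 0 v :=
    lintegral_congr fun θ => Fi_int hG x0 r θ
  rw [h2, lintegral_const, Measure.restrict_apply MeasurableSet.univ, univ_inter,
    Real.volume_Ioc, sub_zero, ENNReal.ofReal_one, mul_one]

variable {l : Filter ℝ} [l.IsCountablyGenerated]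

include hG in
theorem Fi_dct {v : ι → ℂ} {B : Set ℝ} (hB : B.Countable) (hB2 : ∀ θ ∉ B, ∀ᶠ t : ℝ in l,
      x0 + ((t : ℂ) * Complex.exp (θ * Complex.I)) • v ∈ G) :
    Tendsto (fun r : ℝ => ∫⁻ θ in Ioc (0 : ℝ) 1, Fi G x0 r θ v) l (𝓝 0) := by
  have h1 : Tendsto (fun r : ℝ => ∫⁻ θ in Ioc (0 : ℝ) 1, Fi G x0 r θ v) l
      (𝓝 (∫⁻ _ in Ioc (0 : ℝ) 1, (0 : ℝ≥0∞))) := by
    apply tendsto_lintegral_filter_of_dominated_convergence (fun _ => (1 : ℝ≥0∞))
    · exact Eventually.of_forall fun r => Fi_meas_t hG x0 r v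
    · exact Eventually.of_forall fun r => Eventually.of_forall fun θ => Fi_le x0 r θ v
    · rw [lint_one]
      exact ENNReal.one_ne_top
    · apply ae_restrict_of_ae
      filter_upwards [hB.ae_notMem volume] with θ hθ
      apply tendsto_const_nhds.congr'
      filter_upwards [hB2 θ hθ] with t ht
      exact (Fi_zero x0 ht).symm
  rwa [lintegral_zero] at h1

include hG in
theorem Fi_lim (h : ∀ᵐ v : ι → ℂ, ∃ B : Set ℝ, B.Countable ∧ ∀ θ ∉ B, ∀ᶠ t : ℝ in l,
      x0 + ((t : ℂ) * Complex.exp (θ * Complex.I)) • v ∈ G) :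
    Tendsto (fun r : ℝ => ∫⁻ v in closedBall (0 : ι → ℂ) 1, Fi G x0 r 0 v) l (𝓝 0) := by
  have h1 : Tendsto (fun r : ℝ => ∫⁻ v in closedBall (0 : ι → ℂ) 1,
      ∫⁻ θ in Ioc (0 : ℝ) 1, Fi G x0 r θ v) l
      (𝓝 (∫⁻ _ in closedBall (0 : ι → ℂ) 1, (0 : ℝ≥0∞))) := by
    apply tendsto_lintegral_filter_of_dominated_convergence (fun _ => (1 : ℝ≥0∞))
    · exact Eventually.of_forall fun r => Measurable.lintegral_prod_left' (Fi_meas hG x0 r)
    · refine Eventually.of_forall fun r => Eventually.of_forall fun v => ?_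
      calc ∫⁻ θ in Ioc (0 : ℝ) 1, Fi G x0 r θ v ≤ ∫⁻ _ in Ioc (0 : ℝ) 1, (1 : ℝ≥0∞) :=
            lintegral_mono fun θ => Fi_le x0 r θ v
        _ = 1 := lint_one
    · rw [lintegral_const, Measure.restrict_apply MeasurableSet.univ, univ_inter, one_mul]
      exact (isCompact_closedBall (0 : ι → ℂ) 1).measure_lt_top.ne
    · apply ae_restrict_of_ae
      filter_upwards [h] with v hv
      obtain ⟨B, hB, hB2⟩ := hv
      exact Fi_dct hG x0 hB hB2
  rw [lintegral_zero] at h1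
  exact h1.congr fun r => (Fi_swap hG x0 r).symm

theorem scaling {r : ℝ} (hr : 0 < r) (A : Set (ι → ℂ)) :
    volume (closedBall (0 : ι → ℂ) 1 ∩ (fun v : ι → ℂ => x0 + (r : ℂ) • v) ⁻¹' A) =
      ENNReal.ofReal |(r ^ Module.finrank ℝ (ι → ℂ))⁻¹| * volume (closedBall x0 r ∩ A) := by
  have h1 : closedBall (0 : ι → ℂ) 1 ∩ (fun v : ι → ℂ => x0 + (r : ℂ) • v) ⁻¹' A =
      (fun v : ι → ℂ => r • v) ⁻¹' ((fun v : ι → ℂ => x0 + v) ⁻¹' (closedBall x0 r ∩ A)) := by
    ext v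
    simp only [mem_inter_iff, mem_preimage, mem_closedBall, dist_eq_norm, sub_zero,
      add_sub_cancel_left]
    have e1 : (r : ℂ) • v = r • v := by
      funext i
      simp
    rw [e1, norm_smul, Real.norm_of_nonneg hr.le]
    have e2 : r * ‖v‖ ≤ r ↔ ‖v‖ ≤ 1 := by
      constructor
      · intro h
        by_contra hc
        push Not at hc
        nlinarith
      · intro h
        nlinarith
    rw [e2]
  rw [h1, Measure.addHaar_preimage_smul volume hr.ne', measure_preimage_add]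

include hG in
theorem density (hl : ∀ᶠ r : ℝ in l, 0 < r) (h : ∀ᵐ v : ι → ℂ, ∃ B : Set ℝ, B.Countable ∧ ∀ θ ∉ B, ∀ᶠ t : ℝ in l,
      x0 + ((t : ℂ) * Complex.exp (θ * Complex.I)) • v ∈ G) :
    Tendsto (fun r : ℝ => volume (closedBall x0 r \ G) / volume (closedBall x0 r)) l
      (𝓝 0) := by
  have hm0 := Fi_lim hG x0 h
  have hfin : ∀ r : ℝ, 0 < r → volume (closedBall x0 r \ G) / volume (closedBall x0 r) =
      (∫⁻ v in closedBall (0 : ι → ℂ) 1, Fi G x0 r 0 v) / volume (closedBall (0 : ι → ℂ) 1) := by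
    intro r hr
    have h1 := scaling x0 hr (Gᶜ)
    have h2 := scaling x0 hr univ
    rw [preimage_univ, inter_univ, inter_univ] at h2
    have h3 : ∫⁻ v in closedBall (0 : ι → ℂ) 1, Fi G x0 r 0 v =
        volume (closedBall (0 : ι → ℂ) 1 ∩ (fun v : ι → ℂ => x0 + (r : ℂ) • v) ⁻¹' (Gᶜ)) := by
      have h4 : ∀ v : ι → ℂ, Fi G x0 r 0 v =
          ((fun v : ι → ℂ => x0 + (r : ℂ) • v) ⁻¹' (Gᶜ)).indicator 1 v := by
        intro v
        unfold Fi
        rw [Complex.ofReal_zero, zero_mul, Complex.exp_zero, mul_one]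
        rfl
      have h5 : MeasurableSet ((fun v : ι → ℂ => x0 + (r : ℂ) • v) ⁻¹' (Gᶜ)) :=
        (by fun_prop : Continuous (fun v : ι → ℂ => x0 + (r : ℂ) • v)).measurable
          hG.measurableSet.compl
      rw [lintegral_congr h4, lintegral_indicator_one h5, Measure.restrict_apply h5, inter_comm]
    rw [h3, h1, h2, sdiff_eq]
    have hc0 : ENNReal.ofReal |(r ^ Module.finrank ℝ (ι → ℂ))⁻¹| ≠ 0 := by
      rw [ne_eq, ENNReal.ofReal_eq_zero, not_le]
      have : (r ^ Module.finrank ℝ (ι → ℂ))⁻¹ ≠ 0 := by positivity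
      exact abs_pos.2 this
    rw [ENNReal.mul_div_mul_left _ _ hc0 ENNReal.ofReal_ne_top]
  have hK0 : volume (closedBall (0 : ι → ℂ) 1) ≠ 0 :=
    (measure_closedBall_pos volume (0 : ι → ℂ) one_pos).ne'
  have h9 : Tendsto (fun r : ℝ => (∫⁻ v in closedBall (0 : ι → ℂ) 1, Fi G x0 r 0 v) /
      volume (closedBall (0 : ι → ℂ) 1)) l (𝓝 (0 / volume (closedBall (0 : ι → ℂ) 1))) :=
    ENNReal.Tendsto.div_const hm0 (Or.inr hK0)
  rw [ENNReal.zero_div] at h9
  apply h9.congr'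
  filter_upwards [hl] with r hr
  exact (hfin r hr).symm

end

end Pool.Agent.Helper65.EX
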