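import Mathlib
import Pool.Agent.Helper65.EX.Meas
import Pool.Agent.Helper65.EV.Null

/-! Linear families of rational maps near infinity. -/

set_option autoImplicit false

open Topology Filter Metric Set MeasureTheory Polynomial
open scoped Real NNReal OnePoint ENNReal

namespace Pool.Agent.Helper65.EX

open Pool.Agent.Helper65.EU Pool.Agent.Helper65.EV

open Pool.Agent.H790R3.RB

variable {ι : Type} [Fintype ι]

theorem null_lines {A : Set (ι → ℂ)} (hA : MeasurableSet A) (e : ι → ℂ)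
    (h : ∀ v, {c : ℂ | v + c • e ∈ A}.Countable) : ∀ᵐ v : ι → ℂ, v ∉ A := by
  have hm : Measurable (fun q : ℂ × (ι → ℂ) => A.indicator (1 : (ι → ℂ) → ℝ≥0∞) (q.2 + q.1 • e)) := by
    have h1 : Measurable (fun q : ℂ × (ι → ℂ) => q.2 + q.1 • e) :=
      (by fun_prop : Continuous (fun q : ℂ × (ι → ℂ) => q.2 + q.1 • e)).measurable
    exact (measurable_one.indicator hA).comp h1
  have h1 : ∫⁻ c in ball (0 : ℂ) 1, ∫⁻ v : ι → ℂ, A.indicator (1 : (ι → ℂ) → ℝ≥0∞) (v + c • e) =
      ∫⁻ v : ι → ℂ, ∫⁻ c in ball (0 : ℂ) 1, A.indicator (1 : (ι → ℂ) → ℝ≥0∞) (v + c • e) :=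
    lintegral_lintegral_swap hm.aemeasurable
  have h2 : ∀ c : ℂ, ∫⁻ v : ι → ℂ, A.indicator (1 : (ι → ℂ) → ℝ≥0∞) (v + c • e) = volume A := by
    intro c
    rw [lintegral_add_right_eq_self (fun v : ι → ℂ => A.indicator (1 : (ι → ℂ) → ℝ≥0∞) v) (c • e),
      lintegral_indicator_one hA]
  have h3 : ∀ v : ι → ℂ, ∫⁻ c in ball (0 : ℂ) 1, A.indicator (1 : (ι → ℂ) → ℝ≥0∞) (v + c • e) = 0 := by
    intro v
    have h4 : (fun c : ℂ => A.indicator (1 : (ι → ℂ) → ℝ≥0∞) (v + c • e)) =ᵐ[volume.restrict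
        (ball (0 : ℂ) 1)] fun _ => 0 := by
      apply ae_restrict_of_ae
      filter_upwards [(h v).ae_notMem volume] with c hc
      exact indicator_of_notMem hc _
    rw [lintegral_congr_ae h4, lintegral_zero]
  simp only [h2, h3, lintegral_const, Measure.restrict_apply MeasurableSet.univ, univ_inter,
    zero_mul] at h1
  have hA0 : volume A = 0 := by
    rcases mul_eq_zero.1 h1 with h5 | h5
    · exact h5
    · exact absurd h5 (measure_ball_pos volume (0 : ℂ) one_pos).ne'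
  rw [ae_iff]
  simpa using hA0

/-- the denominators -/
noncomputable def Md (b : ι → ℂ[X]) (ρ : ι → ℂ) : ℂ[X] := ∑ i, Polynomial.C (ρ i) * b i

variable (b : ι → ℂ[X])

theorem Md_add_smul (ρ e : ι → ℂ) (c : ℂ) :
    Md b (ρ + c • e) = Md b ρ + Polynomial.C c * Md b e := by
  unfold Md
  rw [Finset.mul_sum, ← Finset.sum_add_distrib]
  refine Finset.sum_congr rfl fun i _ => ?_
  simp only [Pi.add_apply, Pi.smul_apply, smul_eq_mul, Polynomial.C_add, Polynomial.C_mul]
  ring

theorem Md_smul (ρ : ι → ℂ) (c : ℂ) : Md b (c • ρ) = Polynomial.C c * Md b ρ := by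
  unfold Md
  rw [Finset.mul_sum]
  refine Finset.sum_congr rfl fun i _ => ?_
  simp only [Pi.smul_apply, smul_eq_mul, Polynomial.C_mul]
  ring

theorem Md_eval (ρ : ι → ℂ) (z : ℂ) : (Md b ρ).eval z = ∑ i, ρ i * (b i).eval z := by
  unfold Md
  rw [eval_finsetSum]
  simp

theorem Md_der (ρ : ι → ℂ) (z : ℂ) :
    (derivative (Md b ρ)).eval z = ∑ i, ρ i * (derivative (b i)).eval z := by
  unfold Md
  rw [derivative_sum, eval_finsetSum]
  simp

theorem Md_coeff (ρ : ι → ℂ) (j : ℕ) : (Md b ρ).coeff j = ∑ i, ρ i * (b i).coeff j := by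
  unfold Md
  rw [finsetSum_coeff]
  simp

theorem Md_natDegree {n : ℕ} (hb : ∀ i, (b i).natDegree ≤ n) (ρ : ι → ℂ) :
    (Md b ρ).natDegree ≤ n := by
  unfold Md
  apply natDegree_sum_le_of_forall_le
  intro i _
  exact (natDegree_C_mul_le _ _).trans (hb i)

theorem ae_Md {n : ℕ} (hn : 1 ≤ n) {e1 e2 : ι → ℂ} (h1 : Md b e1 = 1)
    (h2 : (Md b e2).coeff n ≠ 0) {R : ℂ[X]} (hR : R ≠ 0) :
    ∀ᵐ ρ : ι → ℂ, (Md b ρ).coeff n ≠ 0 ∧ (Md b ρ).Separable ∧ IsCoprime (Md b ρ) R := by
  set A0 : Set (ι → ℂ) := {ρ | (Md b ρ).coeff n = 0} with hA0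
  set A1 : Set (ι → ℂ) := {ρ | (Md b ρ).coeff n ≠ 0} ∩ ⋃ k : ℕ,
    {ρ | ∃ z ∈ closedBall (0 : ℂ) k, (Md b ρ).eval z = 0 ∧
      (derivative (Md b ρ)).eval z * R.eval z = 0} with hA1
  have hA0c : IsClosed A0 := by
    have : Continuous (fun ρ : ι → ℂ => (Md b ρ).coeff n) := by
      simp only [Md_coeff]
      fun_prop
    exact isClosed_singleton.preimage this
  have hm0 : ∀ᵐ ρ : ι → ℂ, ρ ∉ A0 := by
    apply null_lines hA0c.measurableSet e2
    intro v
    apply lin_count (A := (Md b v).coeff n) h2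
    intro c hc
    have h3 : (Md b (v + c • e2)).coeff n = 0 := hc
    rw [Md_add_smul, coeff_add, coeff_C_mul] at h3
    exact h3
  have hmeas : MeasurableSet A1 := by
    apply MeasurableSet.inter
    · exact hA0c.measurableSet.compl
    · apply MeasurableSet.iUnion
      intro k
      apply IsClosed.measurableSet
      rw [← isOpen_compl_iff, isOpen_iff_mem_nhds]
      intro v hv
      have hv' : ∀ z ∈ closedBall (0 : ℂ) k, ¬ ((Md b v).eval z = 0 ∧
          (derivative (Md b v)).eval z * R.eval z = 0) := fun z hz h => hv ⟨z, hz, h⟩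
      have e1 : ∀ᶠ w in 𝓝 v, ∀ z ∈ closedBall (0 : ℂ) k, ¬ ((Md b w).eval z = 0 ∧
          (derivative (Md b w)).eval z * R.eval z = 0) := by
        apply IsCompact.eventually_forall_of_forall_eventually (isCompact_closedBall _ _)
        intro z hz
        have c1 : Continuous (fun q : (ι → ℂ) × ℂ => (Md b q.1).eval q.2) := by
          simp only [Md_eval]
          fun_prop
        have c2 : Continuous (fun q : (ι → ℂ) × ℂ =>
            (derivative (Md b q.1)).eval q.2 * R.eval q.2) := by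
          simp only [Md_der]
          fun_prop
        have hcl : IsClosed {q : (ι → ℂ) × ℂ | (Md b q.1).eval q.2 = 0 ∧
            (derivative (Md b q.1)).eval q.2 * R.eval q.2 = 0} :=
          (isClosed_singleton.preimage c1).inter (isClosed_singleton.preimage c2)
        have : (v, z) ∈ {q : (ι → ℂ) × ℂ | (Md b q.1).eval q.2 = 0 ∧
            (derivative (Md b q.1)).eval q.2 * R.eval q.2 = 0}ᶜ := hv' z hz
        exact hcl.isOpen_compl.mem_nhds this
      filter_upwards [e1] with w hw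
      rintro ⟨z, hz, h⟩
      exact hw z hz h
  have hm1 : ∀ᵐ ρ : ι → ℂ, ρ ∉ A1 := by
    apply null_lines hmeas e1
    intro v
    have hsh : ∀ c : ℂ, Md b (v + c • e1) = Md b v + Polynomial.C c := by
      intro c
      rw [Md_add_smul, h1, mul_one]
    have hcn : ∀ c : ℂ, (Md b (v + c • e1)).coeff n = (Md b v).coeff n := by
      intro c
      rw [hsh, coeff_add, coeff_C, if_neg (by omega), add_zero]
    by_cases hv : (Md b v).coeff n = 0
    · convert Set.countable_empty
      ext c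
      simp only [mem_empty_iff_false, iff_false]
      intro hc
      exact hc.1 ((hcn c).trans hv)
    · have hdR : derivative (Md b v) * R ≠ 0 := by
        apply mul_ne_zero _ hR
        intro h
        have h3 := derivative_eq_zero.1 h
        have h4 := le_natDegree_of_ne_zero hv
        omega
      apply (((derivative (Md b v) * R).roots.toFinset.finite_toSet.image
        (fun z => - (Md b v).eval z)).subset _).countable
      intro c hc
      obtain ⟨-, h2⟩ := hc
      rw [mem_iUnion] at h2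
      obtain ⟨k, z, -, h3, h4⟩ := h2
      rw [hsh] at h3 h4
      rw [derivative_add, derivative_C, add_zero] at h4
      rw [eval_add, eval_C] at h3
      refine ⟨z, ?_, ?_⟩
      · rw [Finset.mem_coe, Multiset.mem_toFinset, mem_roots hdR, IsRoot.def, eval_mul]
        exact h4
      · simp only
        linear_combination -h3
  filter_upwards [hm0, hm1] with v hv0 hv1
  have hv0' : (Md b v).coeff n ≠ 0 := hv0
  have hno : ∀ z : ℂ, (Md b v).eval z = 0 → (derivative (Md b v)).eval z ≠ 0 ∧ R.eval z ≠ 0 := by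
    intro z hz
    rw [← mul_ne_zero_iff]
    intro h
    apply hv1
    refine ⟨hv0', ?_⟩
    rw [mem_iUnion]
    obtain ⟨k, hk⟩ := exists_nat_ge ‖z‖
    exact ⟨k, z, by rw [mem_closedBall_zero_iff]; exact hk, hz, h⟩
  refine ⟨hv0', ?_, ?_⟩
  · show IsCoprime (Md b v) (derivative (Md b v))
    rw [isCoprime_iff_aeval_ne_zero_of_isAlgClosed ℂ ℂ]
    intro a
    rw [coe_aeval_eq_eval]
    by_contra hcon
    push Not at hcon
    exact (hno a hcon.1).1 hcon.2
  · rw [isCoprime_iff_aeval_ne_zero_of_isAlgClosed ℂ ℂ]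
    intro a
    rw [coe_aeval_eq_eval]
    by_contra hcon
    push Not at hcon
    exact (hno a hcon.1).2 hcon.2

/-- the coefficient vector of a pair -/
noncomputable def vec (n : ℕ) (P Q : ℂ[X]) : CV (n + 1) :=
  fun ij => if ij.1 = 0 then P.coeff ij.2 else Q.coeff ij.2

theorem pol_vec0 {n : ℕ} {P Q : ℂ[X]} (hP : P.natDegree ≤ n + 1) : pol (vec n P Q) 0 = P := by
  ext j
  by_cases hj : j < n + 1 + 1
  · have := PQ.pol_coeff (vec n P Q) 0 ⟨j, hj⟩
    simp only at this
    rw [this]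
    simp [vec]
  · rw [PQ.pol_coeff_gt _ _ _ (by omega), coeff_eq_zero_of_natDegree_lt (by omega)]

theorem pol_vec1 {n : ℕ} {P Q : ℂ[X]} (hQ : Q.natDegree ≤ n + 1) : pol (vec n P Q) 1 = Q := by
  ext j
  by_cases hj : j < n + 1 + 1
  · have := PQ.pol_coeff (vec n P Q) 1 ⟨j, hj⟩
    simp only at this
    rw [this]
    simp [vec]
  · rw [PQ.pol_coeff_gt _ _ _ (by omega), coeff_eq_zero_of_natDegree_lt (by omega)]

theorem vec_add_smul {n : ℕ} (P Q P' Q' : ℂ[X]) (c : ℂ) :
    vec n (P + Polynomial.C c * P') (Q + Polynomial.C c * Q') = vec n P Q + c • vec n P' Q' := by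
  funext ij
  rw [Pi.add_apply, Pi.smul_apply]
  unfold vec
  split_ifs
  · rw [coeff_add, coeff_C_mul, smul_eq_mul]
  · rw [coeff_add, coeff_C_mul, smul_eq_mul]

theorem hyp_scale {d : ℕ} {P Q : ℂ[X]} {c : ℂ} (hc : c ≠ 0)
    (h : HypPair d (Polynomial.C c * P) (Polynomial.C c * Q)) : HypPair d P Q := by
  obtain ⟨h1, h2, f, h3, h4, h5⟩ := h
  have hu : IsUnit (Polynomial.C c) := Polynomial.isUnit_C.2 hc.isUnit
  refine ⟨?_, ?_, f, h3, ?_, h5⟩
  · exact (isCoprime_mul_unit_left hu P Q).1 h1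
  · rwa [natDegree_C_mul hc, natDegree_C_mul hc] at h2
  · intro z hz
    have h6 := h4 z (by rw [eval_mul, eval_C]; exact mul_ne_zero hc hz)
    rw [h6, eval_mul, eval_mul, eval_C, mul_div_mul_left _ _ hc]

theorem dens_inf {n : ℕ} (hn : 1 ≤ n) {P0 B0 : ℂ[X]} (hP0 : P0.natDegree ≤ n + 1)
    (hB0 : B0.natDegree ≤ n + 1) (hRd : (P0 - Polynomial.X * B0).natDegree = n + 2)
    (hR : (P0 - Polynomial.X * B0).Separable) (hb : ∀ i, (b i).natDegree ≤ n)
    {e1 e2 : ι → ℂ} (h1 : Md b e1 = 1) (h2 : (Md b e2).coeff n ≠ 0) :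
    Tendsto (fun r : ℝ => volume {ρ : ι → ℂ | ρ ∈ closedBall (0 : ι → ℂ) r ∧
      ¬ HypPair (n + 1) (P0 + Polynomial.X * Md b ρ) (B0 + Md b ρ)} /
      volume (closedBall (0 : ι → ℂ) r)) atTop (𝓝 0) := by
  have hXM : ∀ ρ : ι → ℂ, (Polynomial.X * Md b ρ).natDegree ≤ n + 1 := by
    intro ρ
    refine natDegree_mul_le.trans ?_
    rw [natDegree_X]
    have := Md_natDegree b hb ρ
    omega
  have hM : ∀ ρ : ι → ℂ, (Md b ρ).natDegree ≤ n + 1 := fun ρ =>
    (Md_natDegree b hb ρ).trans (Nat.le_succ n)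
  set x : (ι → ℂ) → CV (n + 1) := fun ρ =>
    vec n (P0 + Polynomial.X * Md b ρ) (B0 + Md b ρ) with hx
  have hxc : Continuous x := by
    apply continuous_pi
    intro ij
    simp only [hx]
    unfold vec
    split_ifs
    · simp only [coeff_add]
      apply Continuous.add continuous_const
      rcases Nat.eq_zero_or_pos (ij.2 : ℕ) with h | h
      · rw [h]
        simp only [coeff_X_mul_zero]
        exact continuous_const
      · obtain ⟨k, hk⟩ : ∃ k, (ij.2 : ℕ) = k + 1 := ⟨(ij.2 : ℕ) - 1, by omega⟩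
        rw [hk]
        simp only [coeff_X_mul, Md_coeff]
        fun_prop
    · simp only [coeff_add, Md_coeff]
      fun_prop
  have hxs : ∀ (ρ : ι → ℂ) (c : ℂ), x (c • ρ) =
      vec n P0 B0 + c • vec n (Polynomial.X * Md b ρ) (Md b ρ) := by
    intro ρ c
    simp only [hx]
    rw [← vec_add_smul, Md_smul]
    congr 1
    ring
  set G : Set (ι → ℂ) := ⋃ lam : {c : ℂ // c ≠ 0}, (fun ρ => (lam : ℂ) • x ρ) ⁻¹' Gset (n + 1)
    with hG
  have hGo : IsOpen G := by
    apply isOpen_iUnion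
    intro lam
    exact (Gset_open (n + 1)).preimage (hxc.const_smul (lam : ℂ))
  have hGh : ∀ ρ ∈ G, HypPair (n + 1) (P0 + Polynomial.X * Md b ρ) (B0 + Md b ρ) := by
    intro ρ hρ
    obtain ⟨lam, hlam⟩ := mem_iUnion.1 hρ
    have h3 := Gset_hyp (by omega) hlam
    have h4 : ∀ i, pol ((lam : ℂ) • x ρ) i = Polynomial.C (lam : ℂ) * pol (x ρ) i := by
      intro i
      have h5 := pol_add_smul (0 : CV (n + 1)) (x ρ) (lam : ℂ) i
      rw [zero_add] at h5
      rw [h5]
      have h6 : pol (0 : CV (n + 1)) i = 0 := by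
        unfold pol
        simp
      rw [h6, zero_add]
    have h3' : HypPair (n + 1) (pol ((lam : ℂ) • x ρ) 0) (pol ((lam : ℂ) • x ρ) 1) := h3
    rw [h4, h4] at h3'
    have h7 := hyp_scale lam.2 h3'
    have h8 : pol (x ρ) 0 = P0 + Polynomial.X * Md b ρ :=
      pol_vec0 (natDegree_add_le_of_degree_le hP0 (hXM ρ))
    have h9 : pol (x ρ) 1 = B0 + Md b ρ := pol_vec1 (natDegree_add_le_of_degree_le hB0 (hM ρ))
    rwa [h8, h9] at h7
  have hae : ∀ᵐ v : ι → ℂ, ∃ B : Set ℝ, B.Countable ∧ ∀ θ ∉ B, ∀ᶠ r : ℝ in atTop,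
      0 + ((r : ℂ) * Complex.exp (θ * Complex.I)) • v ∈ G := by
    filter_upwards [ae_Md b hn h1 h2 hR.ne_zero] with ρ hρ
    obtain ⟨g1, g2, g3⟩ := hρ
    set x0 := vec n (Polynomial.X * Md b ρ) (Md b ρ) with hx0
    set v := vec n P0 B0 with hv
    have p0 : pol x0 0 = Polynomial.X * Md b ρ := pol_vec0 (hXM ρ)
    have p1 : pol x0 1 = Md b ρ := pol_vec1 (hM ρ)
    have q0 : pol v 0 = P0 := pol_vec0 hP0
    have q1 : pol v 1 = B0 := pol_vec1 hB0
    obtain ⟨B, hB, hB2⟩ := EV.cert_dir hn x0 v (by rw [p0, p1])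
      (by rw [p1]; exact Md_natDegree b hb ρ) (by rw [p1]; exact g2.ne_zero)
      (by rw [q0, q1]; exact hRd) (by rw [q0, q1]; exact hR) (by rw [p1, q0, q1]; exact g3)
      (fun p hp hp2 => by
        rw [p1] at hp hp2
        exact absurd hp2 (g2.eval₂_derivative_ne_zero (RingHom.id ℂ) hp))
      (fun h => by
        rw [p1] at h
        exact absurd h g1)
      (Or.inl (by
        rw [wr_inf]
        have k1 : x0 (0, Fin.last (n + 1)) = (Md b ρ).coeff n := by
          simp only [hx0, vec, if_true, Fin.val_last, coeff_X_mul]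
        have k2 : x0 (1, Fin.last (n + 1)) = 0 := by
          simp only [hx0, vec, one_ne_zero, if_false, Fin.val_last]
          apply coeff_eq_zero_of_natDegree_lt
          have := Md_natDegree b hb ρ
          omega
        have k3 : x0 (1, ⟨n, by omega⟩) = (Md b ρ).coeff n := by
          simp only [hx0, vec, one_ne_zero, if_false]
        rw [k1, k2, k3, mul_zero, sub_zero]
        refine mul_ne_zero ?_ (mul_ne_zero g1 g1)
        exact_mod_cast (Nat.succ_ne_zero n)))
    refine ⟨(fun θ : ℝ => -θ) '' B, hB.image _, fun θ hθ => ?_⟩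
    have hθ' : -θ ∉ B := fun h => hθ ⟨-θ, h, by simp⟩
    have h3 := hB2 (-θ) hθ'
    have h4 := tendsto_inv_atTop_nhdsGT_zero.eventually h3
    filter_upwards [h4, eventually_gt_atTop 0] with r hr hr0
    obtain ⟨s, hs⟩ := hr
    rw [zero_add, hG, mem_iUnion]
    set c : ℂ := (r : ℂ) * Complex.exp (θ * Complex.I) with hc
    have hc0 : c ≠ 0 := mul_ne_zero (by exact_mod_cast hr0.ne') (Complex.exp_ne_zero _)
    have hcinv : ((r⁻¹ : ℝ) : ℂ) * Complex.exp ((-θ : ℝ) * Complex.I) = c⁻¹ := by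
      rw [hc, mul_inv, ← Complex.exp_neg]
      push_cast
      congr 2
      ring
    refine ⟨⟨c⁻¹, inv_ne_zero hc0⟩, ?_⟩
    show c⁻¹ • x (c • ρ) ∈ Gset (n + 1)
    have h5 : c⁻¹ • x (c • ρ) = x0 + c⁻¹ • v := by
      rw [hxs, smul_add, smul_smul, inv_mul_cancel₀ hc0, one_smul]
      exact add_comm _ _
    rw [h5, ← hcinv]
    exact mem_iUnion.2 ⟨s, hs⟩
  have hfin := density hGo (0 : ι → ℂ) (l := atTop) (eventually_gt_atTop 0) hae
  apply tendsto_of_tendsto_of_tendsto_of_le_of_le tendsto_const_nhds hfin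
  · intro r
    exact zero_le
  · intro r
    apply ENNReal.div_le_div_right
    apply measure_mono
    rintro ρ ⟨hx1, hx2⟩
    exact ⟨hx1, fun h => hx2 (hGh ρ h)⟩

end Pool.Agent.Helper65.EX
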