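import Mathlib
import Pool.Agent.Helper65.EX.Fam
import Pool.Agent.Helper65.EN.Null2

/-! Linear families of rational maps near infinity: any property of the certified maps. -/

set_option autoImplicit false

open Topology Filter Metric Set MeasureTheory Polynomial
open scoped Real NNReal OnePoint ENNReal

namespace Pool.Agent.Helper65.EX

open Pool.Agent.Helper65.EU Pool.Agent.Helper65.EV

open Pool.Agent.H790R3.RB

open Pool.Agent.Helper114.Herman (IsRat fatou)

variable {ι : Type} [Fintype ι]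

variable (b : ι → ℂ[X])

theorem dens_inf_gen {n : ℕ} (S : ℂ[X] → ℂ[X] → Prop)
    (hS : ∀ y ∈ Gset (n + 1), S (pol y 0) (pol y 1))
    (hsc : ∀ (P Q : ℂ[X]) (c : ℂ), c ≠ 0 → S (Polynomial.C c * P) (Polynomial.C c * Q) → S P Q)
    (hn : 1 ≤ n) {P0 B0 : ℂ[X]} (hP0 : P0.natDegree ≤ n + 1)
    (hB0 : B0.natDegree ≤ n + 1) (hRd : (P0 - Polynomial.X * B0).natDegree = n + 2)
    (hR : (P0 - Polynomial.X * B0).Separable) (hb : ∀ i, (b i).natDegree ≤ n)
    {e1 e2 : ι → ℂ} (h1 : Md b e1 = 1) (h2 : (Md b e2).coeff n ≠ 0) :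
    Tendsto (fun r : ℝ => volume {ρ : ι → ℂ | ρ ∈ closedBall (0 : ι → ℂ) r ∧
      ¬ S (P0 + Polynomial.X * Md b ρ) (B0 + Md b ρ)} /
      volume (closedBall (0 : ι → ℂ) r)) atTop (𝓝 0) := by
  have hXM : ∀ ρ : ι → ℂ, (Polynomial.X * Md b ρ).natDegree ≤ n + 1 := by
    intro ρ
    refine natDegree_mul_le.trans ?_
    rw [natDegree_X]
    have := Md_natDegree b hb ρ
    omega
  have hM : ∀ ρ : ι → ℂ, (Md b ρ).natDegree ≤ n + 1 := fun ρ =>
    (Md_natDegree b hb ρ).trans (Nat.le_succ n)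
  set x : (ι → ℂ) → CV (n + 1) := fun ρ =>
    vec n (P0 + Polynomial.X * Md b ρ) (B0 + Md b ρ) with hx
  have hxc : Continuous x := by
    apply continuous_pi
    intro ij
    simp only [hx]
    unfold vec
    split_ifs
    · simp only [coeff_add]
      apply Continuous.add continuous_const
      rcases Nat.eq_zero_or_pos (ij.2 : ℕ) with h | h
      · rw [h]
        simp only [coeff_X_mul_zero]
        exact continuous_const
      · obtain ⟨k, hk⟩ : ∃ k, (ij.2 : ℕ) = k + 1 := ⟨(ij.2 : ℕ) - 1, by omega⟩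
        rw [hk]
        simp only [coeff_X_mul, Md_coeff]
        fun_prop
    · simp only [coeff_add, Md_coeff]
      fun_prop
  have hxs : ∀ (ρ : ι → ℂ) (c : ℂ), x (c • ρ) =
      vec n P0 B0 + c • vec n (Polynomial.X * Md b ρ) (Md b ρ) := by
    intro ρ c
    simp only [hx]
    rw [← vec_add_smul, Md_smul]
    congr 1
    ring
  set G : Set (ι → ℂ) := ⋃ lam : {c : ℂ // c ≠ 0}, (fun ρ => (lam : ℂ) • x ρ) ⁻¹' Gset (n + 1)
    with hG
  have hGo : IsOpen G := by
    apply isOpen_iUnion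
    intro lam
    exact (Gset_open (n + 1)).preimage (hxc.const_smul (lam : ℂ))
  have hGh : ∀ ρ ∈ G, S (P0 + Polynomial.X * Md b ρ) (B0 + Md b ρ) := by
    intro ρ hρ
    obtain ⟨lam, hlam⟩ := mem_iUnion.1 hρ
    have h3 := hS _ hlam
    have h4 : ∀ i, pol ((lam : ℂ) • x ρ) i = Polynomial.C (lam : ℂ) * pol (x ρ) i := by
      intro i
      have h5 := pol_add_smul (0 : CV (n + 1)) (x ρ) (lam : ℂ) i
      rw [zero_add] at h5
      rw [h5]
      have h6 : pol (0 : CV (n + 1)) i = 0 := by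
        unfold pol
        simp
      rw [h6, zero_add]
    have h3' : S (pol ((lam : ℂ) • x ρ) 0) (pol ((lam : ℂ) • x ρ) 1) := h3
    rw [h4, h4] at h3'
    have h7 := hsc _ _ _ lam.2 h3'
    have h8 : pol (x ρ) 0 = P0 + Polynomial.X * Md b ρ :=
      pol_vec0 (natDegree_add_le_of_degree_le hP0 (hXM ρ))
    have h9 : pol (x ρ) 1 = B0 + Md b ρ := pol_vec1 (natDegree_add_le_of_degree_le hB0 (hM ρ))
    rwa [h8, h9] at h7
  have hae : ∀ᵐ v : ι → ℂ, ∃ B : Set ℝ, B.Countable ∧ ∀ θ ∉ B, ∀ᶠ r : ℝ in atTop,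
      0 + ((r : ℂ) * Complex.exp (θ * Complex.I)) • v ∈ G := by
    filter_upwards [ae_Md b hn h1 h2 hR.ne_zero] with ρ hρ
    obtain ⟨g1, g2, g3⟩ := hρ
    set x0 := vec n (Polynomial.X * Md b ρ) (Md b ρ) with hx0
    set v := vec n P0 B0 with hv
    have p0 : pol x0 0 = Polynomial.X * Md b ρ := pol_vec0 (hXM ρ)
    have p1 : pol x0 1 = Md b ρ := pol_vec1 (hM ρ)
    have q0 : pol v 0 = P0 := pol_vec0 hP0
    have q1 : pol v 1 = B0 := pol_vec1 hB0
    obtain ⟨B, hB, hB2⟩ := EV.cert_dir hn x0 v (by rw [p0, p1])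
      (by rw [p1]; exact Md_natDegree b hb ρ) (by rw [p1]; exact g2.ne_zero)
      (by rw [q0, q1]; exact hRd) (by rw [q0, q1]; exact hR) (by rw [p1, q0, q1]; exact g3)
      (fun p hp hp2 => by
        rw [p1] at hp hp2
        exact absurd hp2 (g2.eval₂_derivative_ne_zero (RingHom.id ℂ) hp))
      (fun h => by
        rw [p1] at h
        exact absurd h g1)
      (Or.inl (by
        rw [wr_inf]
        have k1 : x0 (0, Fin.last (n + 1)) = (Md b ρ).coeff n := by
          simp only [hx0, vec, if_true, Fin.val_last, coeff_X_mul]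
        have k2 : x0 (1, Fin.last (n + 1)) = 0 := by
          simp only [hx0, vec, one_ne_zero, if_false, Fin.val_last]
          apply coeff_eq_zero_of_natDegree_lt
          have := Md_natDegree b hb ρ
          omega
        have k3 : x0 (1, ⟨n, by omega⟩) = (Md b ρ).coeff n := by
          simp only [hx0, vec, one_ne_zero, if_false]
        rw [k1, k2, k3, mul_zero, sub_zero]
        refine mul_ne_zero ?_ (mul_ne_zero g1 g1)
        exact_mod_cast (Nat.succ_ne_zero n)))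
    refine ⟨(fun θ : ℝ => -θ) '' B, hB.image _, fun θ hθ => ?_⟩
    have hθ' : -θ ∉ B := fun h => hθ ⟨-θ, h, by simp⟩
    have h3 := hB2 (-θ) hθ'
    have h4 := tendsto_inv_atTop_nhdsGT_zero.eventually h3
    filter_upwards [h4, eventually_gt_atTop 0] with r hr hr0
    obtain ⟨s, hs⟩ := hr
    rw [zero_add, hG, mem_iUnion]
    set c : ℂ := (r : ℂ) * Complex.exp (θ * Complex.I) with hc
    have hc0 : c ≠ 0 := mul_ne_zero (by exact_mod_cast hr0.ne') (Complex.exp_ne_zero _)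
    have hcinv : ((r⁻¹ : ℝ) : ℂ) * Complex.exp ((-θ : ℝ) * Complex.I) = c⁻¹ := by
      rw [hc, mul_inv, ← Complex.exp_neg]
      push_cast
      congr 2
      ring
    refine ⟨⟨c⁻¹, inv_ne_zero hc0⟩, ?_⟩
    show c⁻¹ • x (c • ρ) ∈ Gset (n + 1)
    have h5 : c⁻¹ • x (c • ρ) = x0 + c⁻¹ • v := by
      rw [hxs, smul_add, smul_smul, inv_mul_cancel₀ hc0, one_smul]
      exact add_comm _ _
    rw [h5, ← hcinv]
    exact mem_iUnion.2 ⟨s, hs⟩
  have hfin := density hGo (0 : ι → ℂ) (l := atTop) (eventually_gt_atTop 0) hae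
  apply tendsto_of_tendsto_of_tendsto_of_le_of_le tendsto_const_nhds hfin
  · intro r
    exact zero_le
  · intro r
    apply ENNReal.div_le_div_right
    apply measure_mono
    rintro ρ ⟨hx1, hx2⟩
    exact ⟨hx1, fun h => hx2 (hGh ρ h)⟩


/-- a rational map of degree `d` whose Julia set has area zero -/
def NullPair (d : ℕ) (P Q : ℂ[X]) : Prop :=
  IsCoprime P Q ∧ max P.natDegree Q.natDegree = d ∧
    ∃ f : OnePoint ℂ → OnePoint ℂ, Continuous f ∧
      (∀ z : ℂ, Q.eval z ≠ 0 → f z = (P.eval z / Q.eval z : ℂ)) ∧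
      volume {z : ℂ | (z : OnePoint ℂ) ∉ fatou f} = 0

theorem null_scale {d : ℕ} (P Q : ℂ[X]) (c : ℂ) (hc : c ≠ 0)
    (h : NullPair d (Polynomial.C c * P) (Polynomial.C c * Q)) : NullPair d P Q := by
  obtain ⟨h1, h2, f, h3, h4, h5⟩ := h
  have hu : IsUnit (Polynomial.C c) := Polynomial.isUnit_C.2 hc.isUnit
  refine ⟨?_, ?_, f, h3, ?_, h5⟩
  · exact (isCoprime_mul_unit_left hu P Q).1 h1
  · rwa [natDegree_C_mul hc, natDegree_C_mul hc] at h2
  · intro z hz
    have h6 := h4 z (by rw [eval_mul, eval_C]; exact mul_ne_zero hc hz)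
    rw [h6, eval_mul, eval_mul, eval_C, mul_div_mul_left _ _ hc]

theorem gset_nullPair {d : ℕ} (hd : 2 ≤ d) (y : CV d) (hy : y ∈ Gset d) :
    NullPair d (pol y 0) (pol y 1) := by
  obtain ⟨⟨f, hf⟩, h3, h4⟩ := Pool.Agent.Helper65.EN.gset_null hd hy
  exact ⟨hf.cop, h3, f, hf.cont, hf.eval, h4 f hf⟩

end Pool.Agent.Helper65.EX
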