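import Mathlib
import Pool.Agent.Helper65.EX.Fam

/-! Rational maps with prescribed fixed points. -/

set_option autoImplicit false

open Topology Filter Metric Set MeasureTheory Polynomial
open scoped Real NNReal OnePoint ENNReal

namespace Pool.Agent.Helper65.EX

open Pool.Agent.Helper65.EU Pool.Agent.Helper65.EV

open Pool.Agent.H790R3.RB

/-- the product without one factor -/
noncomputable def Bp {m : ℕ} (ζ : Fin m → ℂ) (i : Fin m) : ℂ[X] :=
  ∏ j ∈ Finset.univ.erase i, (Polynomial.X - Polynomial.C (ζ j))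

/-- the polynomial with the given roots -/
noncomputable def Np {m : ℕ} (ζ : Fin m → ℂ) : ℂ[X] := ∏ j, (Polynomial.X - Polynomial.C (ζ j))

section

variable {n : ℕ} {ζ : Fin (n + 2) → ℂ}

theorem Bp_mul (i : Fin (n + 2)) : (Polynomial.X - Polynomial.C (ζ i)) * Bp ζ i = Np ζ :=
  Finset.mul_prod_erase Finset.univ (fun j => Polynomial.X - Polynomial.C (ζ j)) (Finset.mem_univ i)

theorem Bp_monic (i : Fin (n + 2)) : (Bp ζ i).Monic := monic_prod_X_sub_C _ _

theorem Np_monic : (Np ζ).Monic := monic_prod_X_sub_C _ _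

theorem Bp_natDegree (i : Fin (n + 2)) : (Bp ζ i).natDegree = n + 1 := by
  unfold Bp
  rw [natDegree_finsetProd_X_sub_C_eq_card, Finset.card_erase_of_mem (Finset.mem_univ i),
    Finset.card_univ, Fintype.card_fin]
  rfl

theorem Np_natDegree : (Np ζ).natDegree = n + 2 := by
  unfold Np
  rw [natDegree_finsetProd_X_sub_C_eq_card, Finset.card_univ, Fintype.card_fin]

theorem Bp_coeff (i : Fin (n + 2)) : (Bp ζ i).coeff (n + 1) = 1 := by
  have := Bp_monic (ζ := ζ) i
  unfold Monic leadingCoeff at this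
  rwa [Bp_natDegree] at this

theorem Np_coeff : (Np ζ).coeff (n + 2) = 1 := by
  have := Np_monic (ζ := ζ)
  unfold Monic leadingCoeff at this
  rwa [Np_natDegree] at this

theorem Np_eval (i : Fin (n + 2)) : (Np ζ).eval (ζ i) = 0 := by
  rw [← Bp_mul i, eval_mul]
  simp

variable (hζ : Function.Injective ζ)

include hζ in
theorem Bp_eval (i : Fin (n + 2)) : (Bp ζ i).eval (ζ i) ≠ 0 := by
  unfold Bp
  rw [eval_prod, Finset.prod_ne_zero_iff]
  intro j hj
  rw [eval_sub, eval_X, eval_C, sub_ne_zero]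
  intro h
  exact (Finset.mem_erase.1 hj).1 (hζ h).symm

theorem Bp_eval_ne {i k : Fin (n + 2)} (h : k ≠ i) : (Bp ζ i).eval (ζ k) = 0 := by
  unfold Bp
  rw [eval_prod]
  apply Finset.prod_eq_zero (Finset.mem_erase.2 ⟨h, Finset.mem_univ k⟩)
  simp

/-- the denominators -/
noncomputable def den {m : ℕ} (ζ : Fin m → ℂ) (r : Fin m → ℂ) : ℂ[X] :=
  ∑ i, Polynomial.C (r i) * Bp ζ i

theorem den_eval (r : Fin (n + 2) → ℂ) (i : Fin (n + 2)) :
    (den ζ r).eval (ζ i) = r i * (Bp ζ i).eval (ζ i) := by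
  unfold den
  rw [eval_finsetSum, Finset.sum_eq_single_of_mem i (Finset.mem_univ _)]
  · rw [eval_mul, eval_C]
  · intro k _ hk
    rw [eval_mul, Bp_eval_ne hk.symm, mul_zero]

theorem den_natDegree (r : Fin (n + 2) → ℂ) : (den ζ r).natDegree ≤ n + 1 := by
  unfold den
  apply natDegree_sum_le_of_forall_le
  intro i _
  exact (natDegree_C_mul_le _ _).trans (le_of_eq (Bp_natDegree i))

theorem den_coeff (r : Fin (n + 2) → ℂ) : (den ζ r).coeff (n + 1) = ∑ i, r i := by
  unfold den
  rw [finsetSum_coeff]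
  refine Finset.sum_congr rfl fun i _ => ?_
  rw [coeff_C_mul, Bp_coeff, mul_one]

include hζ in
theorem interp {T : ℂ[X]} (hT : T.natDegree ≤ n + 1) :
    T = den ζ (fun i => T.eval (ζ i) / (Bp ζ i).eval (ζ i)) := by
  apply eq_of_natDegree_lt_card_of_eval_eq T _ hζ
  · intro i
    rw [den_eval, div_mul_cancel₀ _ (Bp_eval hζ i)]
  · rw [Fintype.card_fin]
    have := den_natDegree (ζ := ζ) (fun i => T.eval (ζ i) / (Bp ζ i).eval (ζ i))
    omega

/-- the indices -/
noncomputable def idx {m : ℕ} (s : Fin m → ℂ) : Fin (m + 1) → ℂ := Fin.cons (1 - ∑ i, s i) s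

/-- the linear part -/
noncomputable def bq (ζ : Fin (n + 2) → ℂ) (i : Fin (n + 1)) : ℂ[X] := Bp ζ i.succ - Bp ζ 0

theorem bq_natDegree (i : Fin (n + 1)) : (bq ζ i).natDegree ≤ n := by
  have h1 : (bq ζ i).natDegree ≤ n + 1 := by
    unfold bq
    exact (natDegree_sub_le _ _).trans (max_le (le_of_eq (Bp_natDegree _))
      (le_of_eq (Bp_natDegree _)))
  have h2 : (bq ζ i).coeff (n + 1) = 0 := by
    unfold bq
    rw [coeff_sub, Bp_coeff, Bp_coeff, sub_self]
  rw [natDegree_le_iff_coeff_eq_zero]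
  intro N hN
  rcases Nat.lt_or_ge (n + 1) N with h | h
  · exact coeff_eq_zero_of_natDegree_lt (by omega)
  · have : N = n + 1 := by omega
    rw [this]
    exact h2

theorem den_idx (s : Fin (n + 1) → ℂ) : den ζ (idx s) = Bp ζ 0 + Md (bq ζ) s := by
  unfold den idx Md bq
  rw [Fin.sum_univ_succ]
  simp only [Fin.cons_zero, Fin.cons_succ, mul_sub, Finset.sum_sub_distrib, ← Finset.sum_mul]
  rw [Polynomial.C_sub, Polynomial.C_1]
  rw [map_sum]
  ring

include hζ in
theorem Md_surj {T : ℂ[X]} (hT : T.natDegree ≤ n) :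
    Md (bq ζ) (fun i => T.eval (ζ i.succ) / (Bp ζ i.succ).eval (ζ i.succ)) = T := by
  have h1 := interp hζ (hT.trans (Nat.le_succ n))
  set r : Fin (n + 2) → ℂ := fun i => T.eval (ζ i) / (Bp ζ i).eval (ζ i) with hr
  have h2 : ∑ i, r i = 0 := by
    rw [← den_coeff (ζ := ζ) r, ← h1]
    exact coeff_eq_zero_of_natDegree_lt (by omega)
  have h3 : r 0 = -∑ i : Fin (n + 1), r i.succ := by
    rw [Fin.sum_univ_succ] at h2
    linear_combination h2
  have h4 : den ζ r = Md (bq ζ) (fun i => r i.succ) := by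
    unfold den Md bq
    rw [Fin.sum_univ_succ, h3]
    simp only [mul_sub, Finset.sum_sub_distrib, ← Finset.sum_mul]
    rw [Polynomial.C_neg, map_sum]
    ring
  exact h4.symm.trans h1.symm

include hζ in
/-- **density one among the maps with prescribed fixed points** -/
theorem dens_idx (hn : 1 ≤ n) :
    Tendsto (fun r : ℝ => volume {s : Fin (n + 1) → ℂ | s ∈ closedBall (0 : Fin (n + 1) → ℂ) r ∧
      ¬ HypPair (n + 1) (Polynomial.X * den ζ (idx s) - Np ζ) (den ζ (idx s))} /
      volume (closedBall (0 : Fin (n + 1) → ℂ) r)) atTop (𝓝 0) := by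
  have hB0 : (Bp ζ 0).natDegree ≤ n + 1 := le_of_eq (Bp_natDegree 0)
  have hP0 : (Polynomial.X * Bp ζ 0 - Np ζ).natDegree ≤ n + 1 := by
    have h1 : Polynomial.X * Bp ζ 0 - Np ζ = Polynomial.C (ζ 0) * Bp ζ 0 := by
      rw [← Bp_mul 0]
      ring
    rw [h1]
    exact (natDegree_C_mul_le _ _).trans hB0
  have hR : Polynomial.X * Bp ζ 0 - Np ζ - Polynomial.X * Bp ζ 0 = -Np ζ := by ring
  have hsep : (Np ζ).Separable := separable_prod_X_sub_C_iff.2 hζ
  have h := dens_inf (bq ζ) hn hP0 hB0 (by rw [hR, natDegree_neg, Np_natDegree])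
    (by
      rw [hR, neg_eq_neg_one_mul, show (-1 : ℂ[X]) = Polynomial.C (-1) by simp]
      exact Separable.unit_mul (Polynomial.isUnit_C.2 (by simp)) hsep) bq_natDegree
    (Md_surj hζ (T := 1) (by simp))
    (e2 := fun i => ((Polynomial.X : ℂ[X]) ^ n).eval (ζ i.succ) / (Bp ζ i.succ).eval (ζ i.succ))
    (by
      rw [Md_surj hζ (T := Polynomial.X ^ n) (by simp)]
      simp)
  refine h.congr fun r => ?_
  congr 2
  ext s
  have h1 : Polynomial.X * Bp ζ 0 - Np ζ + Polynomial.X * Md (bq ζ) s =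
      Polynomial.X * den ζ (idx s) - Np ζ := by
    rw [den_idx]; ring
  have h2 : Bp ζ 0 + Md (bq ζ) s = den ζ (idx s) := (den_idx s).symm
  rw [mem_ofPred_eq, mem_ofPred_eq, h1, h2]

/-- the values of a rational map at the poles -/
theorem pole_value {d : ℕ} (hd : 1 ≤ d) {P Q : ℂ[X]} (hcop : IsCoprime P Q)
    (hdeg : max P.natDegree Q.natDegree = d) {f : OnePoint ℂ → OnePoint ℂ} (hf : Continuous f)
    (hv : ∀ z : ℂ, Q.eval z ≠ 0 → f (z : OnePoint ℂ) = ((P.eval z / Q.eval z : ℂ) : OnePoint ℂ))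
    {z : ℂ} (hz : Q.eval z = 0) : f (z : OnePoint ℂ) = (∞ : OnePoint ℂ) := by
  obtain ⟨x, hx, hx0, hx1, hx2⟩ := ((PQ SP) d hd).2 P Q hcop hdeg
  rw [hx2 f hf hv, sp_coe, PQ.hF_one, hx0, hx1]
  unfold pr
  rw [if_pos hz]

include hζ in
theorem param_exists (hn : 1 ≤ n) {P Q : ℂ[X]} (hcop : IsCoprime P Q)
    (hdeg : max P.natDegree Q.natDegree = n + 1) {f : OnePoint ℂ → OnePoint ℂ} (hf : Continuous f)
    (hv : ∀ z : ℂ, Q.eval z ≠ 0 → f (z : OnePoint ℂ) = ((P.eval z / Q.eval z : ℂ) : OnePoint ℂ))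
    (hfix : ∀ i, f (ζ i : OnePoint ℂ) = (ζ i : OnePoint ℂ)) :
    ∃ (c : ℂ) (s : Fin (n + 1) → ℂ), c ≠ 0 ∧ Q = Polynomial.C c * den ζ (idx s) ∧
      P = Polynomial.C c * (Polynomial.X * den ζ (idx s) - Np ζ) := by
  have hQ : ∀ i, Q.eval (ζ i) ≠ 0 := by
    intro i h
    have h1 := pole_value (by omega) hcop hdeg hf hv h
    rw [hfix i] at h1
    exact OnePoint.coe_ne_infty _ h1
  have hP : ∀ i, P.eval (ζ i) = ζ i * Q.eval (ζ i) := by
    intro i
    have h1 := hv (ζ i) (hQ i)
    rw [hfix i] at h1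
    have h2 := OnePoint.coe_injective h1
    rw [eq_div_iff (hQ i)] at h2
    exact h2.symm
  have hPd : P.natDegree ≤ n + 1 := by rw [← hdeg]; exact le_max_left _ _
  have hQd : Q.natDegree ≤ n + 1 := by rw [← hdeg]; exact le_max_right _ _
  set c := Q.coeff (n + 1) with hc
  have hXQ : Polynomial.X * Q - P = Polynomial.C c * Np ζ := by
    have h1 : (Polynomial.X * Q - P - Polynomial.C c * Np ζ).natDegree ≤ n + 1 := by
      have h2 : (Polynomial.X * Q - P - Polynomial.C c * Np ζ).natDegree ≤ n + 2 := by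
        refine (natDegree_sub_le_of_le (m := n + 2) (n := n + 2) ?_ ?_).trans (max_le le_rfl le_rfl)
        · refine (natDegree_sub_le_of_le (m := n + 2) (n := n + 2) ?_ ?_).trans
            (max_le le_rfl le_rfl)
          · refine natDegree_mul_le.trans ?_
            rw [natDegree_X]
            omega
          · omega
        · exact (natDegree_C_mul_le _ _).trans (le_of_eq Np_natDegree)
      rw [natDegree_le_iff_coeff_eq_zero]
      intro N hN
      rcases Nat.lt_or_ge (n + 2) N with h | h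
      · exact coeff_eq_zero_of_natDegree_lt (by omega)
      · have h3 : N = n + 2 := by omega
        rw [h3, coeff_sub, coeff_sub, coeff_X_mul, coeff_C_mul, Np_coeff,
          coeff_eq_zero_of_natDegree_lt (p := P) (by omega)]
        ring
    have h4 : Polynomial.X * Q - P - Polynomial.C c * Np ζ = 0 := by
      apply eq_of_natDegree_lt_card_of_eval_eq _ _ hζ
      · intro i
        rw [eval_zero, eval_sub, eval_sub, eval_mul, eval_mul, eval_X, Np_eval, mul_zero, hP i]
        ring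
      · rw [Fintype.card_fin, natDegree_zero]
        omega
    exact sub_eq_zero.1 h4
  have hc0 : c ≠ 0 := by
    intro h
    rw [h, Polynomial.C_0, zero_mul, sub_eq_zero] at hXQ
    have h1 : IsUnit Q := by
      rw [← hXQ] at hcop
      exact (isCoprime_self.1 (hcop.of_mul_left_right))
    have h2 : Q.natDegree = 0 := natDegree_eq_zero_of_isUnit h1
    have h3 : P.natDegree ≤ 1 := by
      rw [← hXQ]
      refine natDegree_mul_le.trans ?_
      rw [natDegree_X, h2]
    rw [h2] at hdeg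
    omega
  set r : Fin (n + 2) → ℂ := fun i => Q.eval (ζ i) / (Bp ζ i).eval (ζ i) / c with hr
  have h1 : Q = Polynomial.C c * den ζ r := by
    conv_lhs => rw [interp hζ hQd]
    unfold den
    rw [Finset.mul_sum]
    refine Finset.sum_congr rfl fun i _ => ?_
    rw [← mul_assoc, ← Polynomial.C_mul]
    congr 2
    rw [hr]
    field_simp
  have h2 : ∑ i, r i = 1 := by
    have h3 := congrArg (fun T => coeff T (n + 1)) h1
    simp only [coeff_C_mul, den_coeff] at h3
    rw [← hc] at h3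
    have h4 : c * 1 = c * ∑ i, r i := by rw [mul_one]; exact h3
    exact (mul_left_cancel₀ hc0 h4).symm
  have h5 : idx (fun i : Fin (n + 1) => r i.succ) = r := by
    unfold idx
    rw [Fin.sum_univ_succ] at h2
    have h6 : 1 - ∑ i : Fin (n + 1), r i.succ = r 0 := by linear_combination -h2
    rw [h6]
    exact Fin.cons_self_tail r
  refine ⟨c, fun i => r i.succ, hc0, ?_, ?_⟩
  · rw [h5]
    exact h1
  · rw [h5, mul_sub, ← hXQ]
    conv_rhs => rw [mul_left_comm, ← h1]
    ring

include hζ in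
theorem param_unique {s s' : Fin (n + 1) → ℂ} {f : OnePoint ℂ → OnePoint ℂ}
    (hs0 : den ζ (idx s) ≠ 0) (hs0' : den ζ (idx s') ≠ 0)
    (h : ∀ z : ℂ, (den ζ (idx s)).eval z ≠ 0 → f (z : OnePoint ℂ) =
      (((Polynomial.X * den ζ (idx s) - Np ζ).eval z / (den ζ (idx s)).eval z : ℂ) : OnePoint ℂ))
    (h' : ∀ z : ℂ, (den ζ (idx s')).eval z ≠ 0 → f (z : OnePoint ℂ) =
      (((Polynomial.X * den ζ (idx s') - Np ζ).eval z / (den ζ (idx s')).eval z : ℂ) : OnePoint ℂ)) :
    s = s' := by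
  have hden : den ζ (idx s) = den ζ (idx s') := by
    have hN : Np ζ ≠ 0 := Np_monic.ne_zero
    set F := den ζ (idx s) * den ζ (idx s') * Np ζ with hF
    have hF0 : F ≠ 0 := mul_ne_zero (mul_ne_zero hs0 hs0') hN
    apply Polynomial.eq_of_infinite_eval_eq
    apply Set.Infinite.mono (s := ((F.roots.toFinset : Set ℂ))ᶜ)
    · intro z hz
      have h1 : F.eval z ≠ 0 := by
        intro h2
        apply hz
        rw [Finset.mem_coe, Multiset.mem_toFinset, mem_roots hF0, IsRoot.def]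
        exact h2
      rw [hF, eval_mul, eval_mul, mul_ne_zero_iff, mul_ne_zero_iff] at h1
      obtain ⟨⟨h2, h3⟩, h4⟩ := h1
      have h5 := OnePoint.coe_injective ((h z h2).symm.trans (h' z h3))
      rw [div_eq_div_iff h2 h3] at h5
      simp only [eval_sub, eval_mul, eval_X] at h5
      show (den ζ (idx s)).eval z = (den ζ (idx s')).eval z
      apply mul_left_cancel₀ h4
      linear_combination h5
    · exact (Finset.finite_toSet _).infinite_compl
  funext i
  have h1 := congrArg (Polynomial.eval (ζ i.succ)) hden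
  rw [den_eval, den_eval] at h1
  have h2 := mul_right_cancel₀ (Bp_eval hζ i.succ) h1
  unfold idx at h2
  rwa [Fin.cons_succ, Fin.cons_succ] at h2

end

end Pool.Agent.Helper65.EX
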