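import Mathlib
import Pool.Agent.Helper65.EX.FamN
import Pool.Agent.Helper65.EX.Idx

/-! Linear systems of rational maps with prescribed fixed points. -/

set_option autoImplicit false

open Topology Filter Metric Set MeasureTheory Polynomial
open scoped Real NNReal OnePoint ENNReal

namespace Pool.Agent.Helper65.EX

open Pool.Agent.Helper65.EU Pool.Agent.Helper65.EV

open Pool.Agent.H790R3.RB

theorem sub_coeff_deg {n : ℕ} {A B : ℂ[X]} (hA : A.natDegree ≤ n + 1) (hB : B.natDegree ≤ n + 1)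
    (h : A.coeff (n + 1) = B.coeff (n + 1)) : (A - B).natDegree ≤ n := by
  rw [natDegree_le_iff_coeff_eq_zero]
  intro N hN
  rcases Nat.lt_or_ge (n + 1) N with h1 | h1
  · rw [coeff_sub, coeff_eq_zero_of_natDegree_lt (by omega), coeff_eq_zero_of_natDegree_lt (by omega),
      sub_self]
  · have : N = n + 1 := by omega
    rw [this, coeff_sub, h, sub_self]

variable {n : ℕ} {ζ : Fin (n + 2) → ℂ}

variable (hζ : Function.Injective ζ)

include hζ in
/-- **density one in the linear systems of maps with prescribed fixed points** -/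
theorem dens_sub (hn : 1 ≤ n) (S : ℂ[X] → ℂ[X] → Prop)
    (hS : ∀ y ∈ Gset (n + 1), S (pol y 0) (pol y 1))
    (hsc : ∀ (P Q : ℂ[X]) (c : ℂ), c ≠ 0 → S (Polynomial.C c * P) (Polynomial.C c * Q) → S P Q)
    {B : ℂ[X]} (hB : B.Monic) (hBd : B.natDegree = n + 1) {m : ℕ} (M : Fin m → ℂ[X])
    (hM : ∀ j, (M j).natDegree < n + 1) (h1 : (1 : ℂ[X]) ∈ Submodule.span ℂ (Set.range M))
    (h2 : ∃ T ∈ Submodule.span ℂ (Set.range M), T.natDegree = n) :
    Tendsto (fun r : ℝ => volume {ρ : Fin m → ℂ | ρ ∈ closedBall (0 : Fin m → ℂ) r ∧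
      ¬ S (Polynomial.X * (B + ∑ j, Polynomial.C (ρ j) * M j) - Np ζ)
        (B + ∑ j, Polynomial.C (ρ j) * M j)} /
      volume (closedBall (0 : Fin m → ℂ) r)) atTop (𝓝 0) := by
  have hB0 : B.natDegree ≤ n + 1 := hBd.le
  have hBc : B.coeff (n + 1) = 1 := by
    have := hB.coeff_natDegree
    rwa [hBd] at this
  have hP0 : (Polynomial.X * B - Np ζ).natDegree ≤ n + 1 := by
    apply sub_coeff_deg
    · refine natDegree_mul_le.trans ?_
      rw [natDegree_X, hBd]
      omega
    · exact Np_natDegree.le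
    · rw [coeff_X_mul, hBc, Np_coeff]
  have hR : Polynomial.X * B - Np ζ - Polynomial.X * B = -Np ζ := by ring
  have hsep : (Np ζ).Separable := separable_prod_X_sub_C_iff.2 hζ
  obtain ⟨e1, he1⟩ := (Submodule.mem_span_range_iff_exists_fun ℂ).1 h1
  obtain ⟨T, hT, hTn⟩ := h2
  obtain ⟨e2, he2⟩ := (Submodule.mem_span_range_iff_exists_fun ℂ).1 hT
  have hMd : ∀ e : Fin m → ℂ, Md M e = ∑ i, e i • M i := by
    intro e
    unfold Md
    exact Finset.sum_congr rfl fun i _ => (smul_eq_C_mul (e i)).symm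
  have h := dens_inf_gen M S hS hsc hn hP0 hB0 (by rw [hR, natDegree_neg, Np_natDegree])
    (by
      rw [hR, neg_eq_neg_one_mul, show (-1 : ℂ[X]) = Polynomial.C (-1) by simp]
      exact Separable.unit_mul (Polynomial.isUnit_C.2 (by simp)) hsep)
    (fun j => Nat.lt_succ_iff.1 (hM j))
    (e1 := e1) (e2 := e2) (by rw [hMd, he1])
    (by
      rw [hMd, he2, ← hTn]
      have hT0 : T ≠ 0 := by
        rintro rfl
        rw [natDegree_zero] at hTn
        omega
      exact leadingCoeff_ne_zero.2 hT0)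
  refine h.congr fun r => ?_
  congr 2
  ext s
  have h3 : Polynomial.X * B - Np ζ + Polynomial.X * Md M s =
      Polynomial.X * (B + ∑ j, Polynomial.C (s j) * M j) - Np ζ := by
    unfold Md
    ring
  have h4 : B + Md M s = B + ∑ j, Polynomial.C (s j) * M j := rfl
  rw [mem_ofPred_eq, mem_ofPred_eq, h3, h4]

include hζ in
/-- the parametrisation -/
theorem sub_param (hn : 1 ≤ n) {B : ℂ[X]} (hB : B.Monic) (hBd : B.natDegree = n + 1)
    {P Q : ℂ[X]} (hcop : IsCoprime P Q)
    (hdeg : max P.natDegree Q.natDegree = n + 1) {f : OnePoint ℂ → OnePoint ℂ} (hf : Continuous f)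
    (hv : ∀ z : ℂ, Q.eval z ≠ 0 → f (z : OnePoint ℂ) = ((P.eval z / Q.eval z : ℂ) : OnePoint ℂ))
    (hfix : ∀ i, f (ζ i : OnePoint ℂ) = (ζ i : OnePoint ℂ)) :
    ∃! T : ℂ[X], T.natDegree < n + 1 ∧ (IsCoprime (Polynomial.X * (B + T) - Np ζ) (B + T) ∧
      max (Polynomial.X * (B + T) - Np ζ).natDegree (B + T).natDegree = n + 1 ∧ Continuous f ∧
      ∀ z : ℂ, (B + T).eval z ≠ 0 → f (z : OnePoint ℂ) =
        (((Polynomial.X * (B + T) - Np ζ).eval z / (B + T).eval z : ℂ) : OnePoint ℂ)) := by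
  obtain ⟨c, s, hc, hQ, hP⟩ := param_exists hζ hn hcop hdeg hf hv hfix
  set D := den ζ (idx s) with hD
  have hBc : B.coeff (n + 1) = 1 := by
    have := hB.coeff_natDegree
    rwa [hBd] at this
  have hDc : D.coeff (n + 1) = 1 := by
    rw [hD, den_coeff]
    unfold idx
    rw [Fin.sum_univ_succ]
    simp only [Fin.cons_zero, Fin.cons_succ]
    ring
  have hu : IsUnit (Polynomial.C c) := Polynomial.isUnit_C.2 hc.isUnit
  have hBT : B + (D - B) = D := by ring
  have hrat : IsCoprime (Polynomial.X * D - Np ζ) D ∧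
      max (Polynomial.X * D - Np ζ).natDegree D.natDegree = n + 1 ∧ Continuous f ∧
      ∀ z : ℂ, D.eval z ≠ 0 → f (z : OnePoint ℂ) =
        (((Polynomial.X * D - Np ζ).eval z / D.eval z : ℂ) : OnePoint ℂ) := by
    rw [hP, hQ] at hcop hdeg
    refine ⟨(isCoprime_mul_unit_left hu _ _).1 hcop, ?_, hf, ?_⟩
    · rwa [natDegree_C_mul hc, natDegree_C_mul hc] at hdeg
    · intro z hz
      have h5 := hv z (by rw [hQ, eval_mul, eval_C]; exact mul_ne_zero hc hz)
      rw [h5, hP, hQ, eval_mul, eval_mul, eval_C, mul_div_mul_left _ _ hc]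
  refine ⟨D - B, ⟨?_, ?_⟩, ?_⟩
  · exact Nat.lt_succ_of_le (sub_coeff_deg (den_natDegree _) hBd.le (by rw [hDc, hBc]))
  · show IsCoprime (Polynomial.X * (B + (D - B)) - Np ζ) (B + (D - B)) ∧ _
    rw [hBT]
    exact hrat
  · rintro T ⟨hT, -, -, -, hT4⟩
    have hTc : (B + T).coeff (n + 1) = 1 := by
      rw [coeff_add, hBc, coeff_eq_zero_of_natDegree_lt hT, add_zero]
    have hT0 : B + T ≠ 0 := by
      intro h
      rw [h, coeff_zero] at hTc
      exact zero_ne_one hTc
    have hD0 : D ≠ 0 := by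
      intro h
      rw [h, coeff_zero] at hDc
      exact zero_ne_one hDc
    have hden : B + T = D := by
      have hN : Np ζ ≠ 0 := Np_monic.ne_zero
      set F := (B + T) * D * Np ζ with hF
      have hF0 : F ≠ 0 := mul_ne_zero (mul_ne_zero hT0 hD0) hN
      apply Polynomial.eq_of_infinite_eval_eq
      apply Set.Infinite.mono (s := ((F.roots.toFinset : Set ℂ))ᶜ)
      · intro z hz
        have h1 : F.eval z ≠ 0 := by
          intro h2
          apply hz
          rw [Finset.mem_coe, Multiset.mem_toFinset, mem_roots hF0, IsRoot.def]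
          exact h2
        rw [hF, eval_mul, eval_mul, mul_ne_zero_iff, mul_ne_zero_iff] at h1
        obtain ⟨⟨h2, h3⟩, h4⟩ := h1
        have h5 := OnePoint.coe_injective ((hT4 z h2).symm.trans (hrat.2.2.2 z h3))
        rw [div_eq_div_iff h2 h3] at h5
        rw [eval_sub (p := Polynomial.X * (B + T)), eval_sub (p := Polynomial.X * D),
          eval_mul, eval_mul, eval_X] at h5
        show (B + T).eval z = D.eval z
        apply mul_left_cancel₀ h4
        linear_combination h5
      · exact (Finset.finite_toSet _).infinite_compl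
    rw [← hden]
    ring

end Pool.Agent.Helper65.EX
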